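import Mathlib
import Pool.Agent.KS6_19.TP.R107.TruncTheta

/-!
Products of `1 - X^n` over the `n` satisfying a condition, and their inverses.
-/

namespace Pool.Agent.R107.QProd

open PowerSeries PowerSeries.WithPiTopology Finset
open Pool.Agent.R107.TruncTheta (R R_eq R_split coeff_R_nonneg)

/-- product of `1 - X^n` over the `n ≥ 1` with `pr n` -/
noncomputable def E (pr : ℕ → Prop) [DecidablePred pr] : ℤ⟦X⟧ :=
  ∏' n : ℕ, (if pr (n + 1) then 1 - X ^ (n + 1) else 1)

lemma multipliable_E (pr : ℕ → Prop) [DecidablePred pr] :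
    Multipliable (fun n : ℕ => (if pr (n + 1) then (1 : ℤ⟦X⟧) - X ^ (n + 1) else 1)) := by
  have h : (fun n : ℕ => (if pr (n + 1) then (1 : ℤ⟦X⟧) - X ^ (n + 1) else 1)) =
      fun n : ℕ => 1 + (if pr (n + 1) then - (X : ℤ⟦X⟧) ^ (n + 1) else 0) := by
    funext n
    split_ifs
    · ring
    · ring
  rw [h]
  apply multipliable_one_add_of_tendsto_order_atTop_nhds_top
  refine ENat.tendsto_nhds_top_iff_natCast_lt.mpr (fun n ↦ Filter.eventually_atTop.mpr ⟨n, ?_⟩)
  intro m hm
  split_ifs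
  · rw [order_neg, order_X_pow]
    norm_cast
    exact Nat.lt_add_one_iff.mpr hm
  · rw [order_zero]
    exact ENat.coe_lt_top n

lemma E_mul_R (pr : ℕ → Prop) [DecidablePred pr] : E pr * R pr = 1 := by
  rw [R_eq]
  unfold E
  rw [← (multipliable_E pr).tprod_mul
    (Nat.Partition.multipliable_powerSeriesMk_card_restricted ℤ pr)]
  have : ∀ n : ℕ, (if pr (n + 1) then (1 : ℤ⟦X⟧) - X ^ (n + 1) else 1) *
      (if pr (n + 1) then ∑' j : ℕ, (X : ℤ⟦X⟧) ^ ((n + 1) * j) else 1) = 1 := by
    intro n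
    split_ifs
    · simp_rw [pow_mul]
      rw [mul_comm]
      exact tsum_pow_mul_one_sub_of_constantCoeff_eq_zero (by simp)
    · simp
  simp only [this]
  exact tprod_one

lemma E_split (pr qr : ℕ → Prop) [DecidablePred pr] [DecidablePred qr]
    (h : ∀ n, qr (n + 1) ↔ ¬ pr (n + 1)) :
    ∏' n : ℕ, ((1 : ℤ⟦X⟧) - X ^ (n + 1)) = E pr * E qr := by
  unfold E
  rw [← (multipliable_E pr).tprod_mul (multipliable_E qr)]
  apply tprod_congr
  intro n
  by_cases h1 : pr (n + 1)
  · rw [if_pos h1, if_neg (by rw [h]; exact not_not.2 h1), mul_one]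
  · rw [if_neg h1, if_pos ((h n).2 h1), one_mul]

lemma constantCoeff_R (pr : ℕ → Prop) [DecidablePred pr] : constantCoeff (R pr) = 1 := by
  rw [← coeff_zero_eq_constantCoeff_apply]
  unfold R
  rw [PowerSeries.coeff_mk]
  have : Nat.Partition.restricted 0 pr = Finset.univ := by
    unfold Nat.Partition.restricted
    apply Finset.filter_true_of_mem
    intro x _ i hi
    simp at hi
  rw [this]
  simp

lemma constantCoeff_E (pr : ℕ → Prop) [DecidablePred pr] : constantCoeff (E pr) = 1 := by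
  have h := congrArg constantCoeff (E_mul_R pr)
  rw [map_mul, constantCoeff_R, mul_one, map_one] at h
  exact h

lemma invOfUnit_E (pr : ℕ → Prop) [DecidablePred pr] : invOfUnit (E pr) 1 = R pr := by
  have h1 := mul_invOfUnit (E pr) 1 (by rw [constantCoeff_E]; rfl)
  calc invOfUnit (E pr) 1 = (E pr * R pr) * invOfUnit (E pr) 1 := by rw [E_mul_R, one_mul]
    _ = R pr * (E pr * invOfUnit (E pr) 1) := by ring
    _ = R pr := by rw [h1, mul_one]

end Pool.Agent.R107.QProd
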