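import Mathlib
import Pool.Agent.KS6_19.TP.R107.TruncTheta

/-!
Alternating sums of a quadratic quasi-polynomial over the exponents of a theta series: general
machinery. The quasi-polynomial counts the partitions into three fixed parts `al, be, ga`.
-/

namespace Pool.Agent.R107.QT

open PowerSeries PowerSeries.WithPiTopology Finset
open Pool.Agent.R107.TruncTheta (R R_eq R_split coeff_R_nonneg one_sub_mul coeff_mul_nonneg)

/-- Numerical data: three parts, the modulus `Q`, the encoded periodic table, and the theta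
parameters. -/
structure Par where
  al : ℕ
  be : ℕ
  ga : ℕ
  L : ℕ
  tab : ℕ
  Rr : ℕ
  S : ℕ

/-- sum of the three parts -/
def Par.sg (d : Par) : ℤ := (d.al : ℤ) + d.be + d.ga

/-- the modulus `Q = 2 L` -/
def Par.Q (d : Par) : ℕ := 2 * d.L

/-- periodic part -/
def per (d : Par) (n : ℤ) : ℤ := ((d.tab / 256 ^ (n % d.L).toNat % 256 : ℕ) : ℤ) - 64

/-- the quasi-polynomial -/
def q (d : Par) (n : ℤ) : ℤ := (n * n + d.sg * n + per d n) / d.Q

/-- the partition count -/
def p (d : Par) (n : ℤ) : ℤ := if n < 0 then 0 else q d n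

/-- triangular numbers -/
def tri (J : ℕ) : ℕ := J * (J + 1) / 2

lemma two_tri (J : ℕ) : 2 * tri J = J * (J + 1) := by
  unfold tri
  exact Nat.mul_div_cancel' (Nat.even_mul_succ_self J).two_dvd

lemma two_tri' (J : ℕ) : 2 * (tri J : ℤ) = J * (J + 1) := by exact_mod_cast two_tri J

lemma tri_succ (J : ℕ) : tri (J + 1) = tri J + (J + 1) := by
  have h1 := two_tri J
  have h2 := two_tri (J + 1)
  nlinarith

/-- first exponent -/
def a (d : Par) (J : ℕ) : ℤ := (d.Rr : ℤ) * tri J - J * d.S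

/-- second exponent -/
def b (d : Par) (J : ℕ) : ℤ := (d.Rr : ℤ) * tri J + (J + 1) * d.S

/-- error term -/
def err (d : Par) (J : ℕ) (N : ℤ) : ℤ := per d (N - a d J) - per d (N - b d J)

/-- alternating prefix sums of the error terms -/
def W (d : Par) (N : ℤ) : ℕ → ℤ
  | 0 => 0
  | J + 1 => W d N J + (-1) ^ J * err d J N

/-- finite verification of the bounds for `W` -/
def wchk (d : Par) (lo hi N : ℤ) : ℕ → ℕ → ℤ → ℤ → Bool
  | 0, _, _, acc => decide (acc = 0)
  | f + 1, J, sgn, acc => decide (lo ≤ acc) && (decide (acc ≤ hi) &&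
      wchk d lo hi N f (J + 1) (-sgn) (acc + sgn * err d J N))

lemma wchk_spec (d : Par) (lo hi N : ℤ) (f J : ℕ)
    (h : wchk d lo hi N f J ((-1) ^ J) (W d N J) = true) :
    (∀ i < f, lo ≤ W d N (J + i) ∧ W d N (J + i) ≤ hi) ∧ W d N (J + f) = 0 := by
  induction f generalizing J with
  | zero =>
    simp only [wchk, decide_eq_true_eq] at h
    exact ⟨fun i hi => absurd hi (Nat.not_lt_zero i), by simpa using h⟩
  | succ f ih =>
    rw [wchk, Bool.and_eq_true, Bool.and_eq_true, decide_eq_true_eq, decide_eq_true_eq] at h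
    obtain ⟨h1, h2, h3⟩ := h
    have e1 : -((-1 : ℤ) ^ J) = (-1) ^ (J + 1) := by rw [pow_succ]; ring
    have e2 : W d N J + (-1) ^ J * err d J N = W d N (J + 1) := rfl
    rw [e1, e2] at h3
    obtain ⟨h4, h5⟩ := ih (J + 1) h3
    refine ⟨fun i hi => ?_, ?_⟩
    · rcases Nat.eq_zero_or_pos i with rfl | h0
      · exact ⟨by simpa using h1, by simpa using h2⟩
      · have := h4 (i - 1) (by omega)
        rwa [show J + 1 + (i - 1) = J + i by omega] at this
    · rwa [show J + 1 + f = J + (f + 1) by ring] at h5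

/-- third order difference -/
def comb (d : Par) (f : ℤ → ℤ) (n : ℤ) : ℤ :=
  (f n - f (n - d.al) - (f (n - d.be) - f (n - d.be - d.al))) -
    (f (n - d.ga) - f (n - d.ga - d.al) - (f (n - d.ga - d.be) - f (n - d.ga - d.be - d.al)))

/-- The finitely many numerical facts that are needed. -/
structure Ok (d : Par) (plo phi lo hi : ℤ) : Prop where
  Lpos : 0 < d.L
  hpar : (d.L + (d.al + d.be + d.ga)) % 2 = 0
  alpos : 0 < d.al
  bepos : 0 < d.be
  gapos : 0 < d.ga
  hdiv : ∀ r < d.L, (((r : ℤ) * r + d.sg * r + per d r) % d.Q) = 0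
  hcomb : ∀ r < d.L, comb d (per d) (r : ℤ) = 0
  hneg : ∀ j < d.al + d.be + d.ga, 0 < j → (-(j : ℤ)) * (-(j : ℤ)) + d.sg * (-(j : ℤ)) +
    per d (-(j : ℤ)) = 0
  h0 : per d 0 = d.Q
  hper : ∀ r < d.L, plo ≤ per d (r : ℤ) ∧ per d (r : ℤ) ≤ phi
  hW : ∀ r < d.L, wchk d lo hi (r : ℤ) (2 * d.L) 0 1 0 = true
  hS1 : 1 ≤ d.S
  hS2 : d.S < d.Rr
  hS3 : d.S ≤ d.al + d.be + d.ga

variable {d : Par} {plo phi lo hi : ℤ}

lemma Ok.Qpos (ok : Ok d plo phi lo hi) : 0 < d.Q := by
  have := ok.Lpos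
  unfold Par.Q
  omega

lemma per_emod (n m : ℤ) (h : n % d.L = m % d.L) : per d n = per d m := by
  unfold per
  rw [h]

lemma per_add (n : ℤ) (m : ℤ) : per d (n + d.L * m) = per d n := by
  apply per_emod
  rw [Int.add_mul_emod_self_left]

lemma residue (ok : Ok d plo phi lo hi) (n : ℤ) :
    ∃ (r : ℕ) (m : ℤ), r < d.L ∧ n = r + d.L * m := by
  have hQ : (0 : ℤ) < d.L := by exact_mod_cast ok.Lpos
  refine ⟨(n % d.L).toNat, n / d.L, ?_, ?_⟩
  · have h1 := Int.emod_nonneg n hQ.ne'
    have h2 := Int.emod_lt_of_pos n hQ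
    omega
  · have h1 := Int.emod_nonneg n hQ.ne'
    rw [Int.toNat_of_nonneg h1]
    exact (Int.emod_add_mul_ediv n d.L).symm

lemma Q_mul_q (ok : Ok d plo phi lo hi) (n : ℤ) :
    (d.Q : ℤ) * q d n = n * n + d.sg * n + per d n := by
  obtain ⟨r, m, hr, rfl⟩ := residue ok n
  unfold q
  apply Int.mul_ediv_cancel'
  rw [per_add]
  have h1 := Int.dvd_of_emod_eq_zero (ok.hdiv r hr)
  have hsg : d.sg = ((d.al + d.be + d.ga : ℕ) : ℤ) := by unfold Par.sg; push_cast; ring
  have hpar : (2 : ℤ) ∣ m * (d.L * m + d.sg) := by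
    obtain ⟨u, hu⟩ : (2 : ℤ) ∣ (d.L : ℤ) + d.sg := by
      rw [hsg]
      exact_mod_cast Nat.dvd_of_mod_eq_zero ok.hpar
    rcases Int.even_or_odd m with ⟨t, ht⟩ | ⟨t, ht⟩
    · exact ⟨t * (d.L * m + d.sg), by rw [ht]; ring⟩
    · exact ⟨m * (u + d.L * t), by
        have : (d.L : ℤ) * m + d.sg = 2 * (u + d.L * t) := by rw [ht]; linear_combination hu
        rw [this]; ring⟩
  obtain ⟨v, hv⟩ := hpar
  have hQ : (d.Q : ℤ) = 2 * d.L := by unfold Par.Q; push_cast; ring
  have h2 : (d.Q : ℤ) ∣ d.Q * (r * m + v) := dvd_mul_right _ _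
  have h3 := dvd_add h1 h2
  have e : ((r : ℤ) + d.L * m) * (r + d.L * m) + d.sg * (r + d.L * m) + per d r =
      (r : ℤ) * r + d.sg * r + per d r + d.Q * (r * m + v) := by
    rw [hQ]
    linear_combination (d.L : ℤ) * hv
  rw [e]
  exact h3

lemma per_bounds (ok : Ok d plo phi lo hi) (n : ℤ) : plo ≤ per d n ∧ per d n ≤ phi := by
  obtain ⟨r, m, hr, rfl⟩ := residue ok n
  rw [per_add]
  exact ok.hper r hr

lemma comb_per (ok : Ok d plo phi lo hi) (n : ℤ) : comb d (per d) n = 0 := by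
  obtain ⟨r, m, hr, rfl⟩ := residue ok n
  have h := ok.hcomb r hr
  unfold comb at h ⊢
  have e : ∀ x : ℤ, per d (r + d.L * m - x) = per d (r - x) := by
    intro x
    rw [show (r : ℤ) + d.L * m - x = (r - x) + d.L * m by ring, per_add]
  have e2 : ∀ x y : ℤ, per d (r + d.L * m - x - y) = per d (r - x - y) := by
    intro x y
    rw [show (r : ℤ) + d.L * m - x - y = (r - x - y) + d.L * m by ring, per_add]
  have e3 : ∀ x y z : ℤ, per d (r + d.L * m - x - y - z) = per d (r - x - y - z) := by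
    intro x y z
    rw [show (r : ℤ) + d.L * m - x - y - z = (r - x - y - z) + d.L * m by ring, per_add]
  rw [e, e, e, e2, e2, e2, e3, per_add]
  exact h

lemma p_neg {n : ℤ} (h : n < 0) : p d n = 0 := by
  unfold p
  rw [if_pos h]

lemma p_of_nonneg {n : ℤ} (h : 0 ≤ n) : p d n = q d n := by
  unfold p
  rw [if_neg (by omega)]

lemma Q_mul_p (ok : Ok d plo phi lo hi) {n : ℤ} (h : -d.sg < n) :
    (d.Q : ℤ) * p d n = n * n + d.sg * n + per d n := by
  rcases lt_or_ge n 0 with h0 | h0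
  · rw [p_neg h0]
    have h1 : d.sg = ((d.al + d.be + d.ga : ℕ) : ℤ) := by unfold Par.sg; push_cast; ring
    have h2 := ok.hneg (-n).toNat (by omega) (by omega)
    have h3 : (((-n).toNat : ℕ) : ℤ) = -n := Int.toNat_of_nonneg (by omega)
    rw [h3, neg_neg] at h2
    rw [mul_zero, h2]
  · rw [p_of_nonneg h0, Q_mul_q ok]

lemma comb_p (ok : Ok d plo phi lo hi) {n : ℤ} (h : 1 ≤ n) : comb d (p d) n = 0 := by
  have hQ : (d.Q : ℤ) ≠ 0 := by have := ok.Qpos; positivity
  have hs : d.sg = (d.al : ℤ) + d.be + d.ga := rfl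
  have h1 := comb_per ok n
  have a0 : (0 : ℤ) ≤ d.al := by positivity
  have b0 : (0 : ℤ) ≤ d.be := by positivity
  have c0 : (0 : ℤ) ≤ d.ga := by positivity
  apply mul_left_cancel₀ hQ
  rw [mul_zero]
  unfold comb at h1 ⊢
  have e0 := Q_mul_p ok (n := n) (by omega)
  have e1 := Q_mul_p ok (n := n - d.al) (by omega)
  have e2 := Q_mul_p ok (n := n - d.be) (by omega)
  have e3 := Q_mul_p ok (n := n - d.be - d.al) (by omega)
  have e4 := Q_mul_p ok (n := n - d.ga) (by omega)
  have e5 := Q_mul_p ok (n := n - d.ga - d.al) (by omega)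
  have e6 := Q_mul_p ok (n := n - d.ga - d.be) (by omega)
  have e7 := Q_mul_p ok (n := n - d.ga - d.be - d.al) (by omega)
  rw [hs] at e0 e1 e2 e3 e4 e5 e6 e7
  linear_combination e0 - e1 - e2 + e3 - e4 + e5 + e6 - e7 + h1

lemma p_nonneg' (ok : Ok d plo phi lo hi) (n : ℤ) (hlo : -64 ≤ plo)
    (h : ∀ n : ℕ, n < 64 → 0 ≤ p d n) : 0 ≤ p d n := by
  rcases lt_or_ge n 0 with h0 | h0
  · rw [p_neg h0]
  · rcases lt_or_ge n 64 with h1 | h1
    · have := h n.toNat (by omega)
      rwa [Int.toNat_of_nonneg h0] at this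
    · have hQ : (0 : ℤ) < d.Q := by exact_mod_cast ok.Qpos
      have h2 := Q_mul_p ok (n := n) (by
        have : 0 < d.sg := by
          have := ok.alpos
          unfold Par.sg
          positivity
        omega)
      have h3 := (per_bounds ok n).1
      have h4 : 0 < d.sg := by
        have := ok.alpos
        unfold Par.sg
        positivity
      have h5 : 0 ≤ (d.Q : ℤ) * p d n := by
        rw [h2]
        nlinarith
      exact nonneg_of_mul_nonneg_right h5 hQ

/-- generating function of `p` -/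
noncomputable def P (d : Par) : ℤ⟦X⟧ := PowerSeries.mk fun n => p d n

lemma P_inv (ok : Ok d plo phi lo hi) :
    (1 - X ^ d.ga) * ((1 - X ^ d.be) * ((1 - X ^ d.al) * P d)) = 1 := by
  have ha := ok.alpos
  have hb := ok.bepos
  have hc := ok.gapos
  unfold P
  rw [one_sub_mul (p d) (fun n hn => p_neg hn) d.al,
    one_sub_mul (fun n => p d n - p d (n - d.al)) (fun n hn => by
      rw [p_neg hn, p_neg (by omega), sub_zero]) d.be,
    one_sub_mul (fun n => (p d n - p d (n - d.al)) - (p d (n - d.be) - p d (n - d.be - d.al)))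
      (fun n hn => by
      rw [p_neg hn, p_neg (by omega), p_neg (by omega), p_neg (by omega)]
      norm_num) d.ga]
  ext n
  rw [PowerSeries.coeff_mk, PowerSeries.coeff_one]
  split_ifs with h
  · subst h
    have hQ : (d.Q : ℤ) ≠ 0 := by have := ok.Qpos; positivity
    have h1 : p d 0 = 1 := by
      have h2 := Q_mul_p ok (n := 0) (by
        have : 0 < d.sg := by unfold Par.sg; positivity
        omega)
      rw [ok.h0] at h2
      apply mul_left_cancel₀ hQ
      linarith
    push_cast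
    rw [h1, p_neg (n := (0 : ℤ) - d.al) (by omega), p_neg (n := (0 : ℤ) - d.be) (by omega),
      p_neg (n := (0 : ℤ) - d.be - d.al) (by omega), p_neg (n := (0 : ℤ) - d.ga) (by omega),
      p_neg (n := (0 : ℤ) - d.ga - d.al) (by omega),
      p_neg (n := (0 : ℤ) - d.ga - d.be) (by omega),
      p_neg (n := (0 : ℤ) - d.ga - d.be - d.al) (by omega)]
    norm_num
  · have := comb_p ok (n := n) (by omega)
    unfold comb at this
    linarith

lemma a_succ (J : ℕ) : a d (J + 1) = a d J + d.Rr * (J + 1) - d.S := by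
  unfold a
  rw [tri_succ]
  push_cast
  ring

lemma b_eq (J : ℕ) : b d J = a d J + (2 * J + 1) * d.S := by
  unfold a b
  ring

lemma a_le (ok : Ok d plo phi lo hi) (J : ℕ) : a d J + (J + 1) ≤ a d (J + 1) := by
  rw [a_succ]
  have h2 : ((d.S : ℤ)) + 1 ≤ d.Rr := by have := ok.hS2; omega
  have h3 : (0 : ℤ) ≤ J := by positivity
  have h4 : (1 : ℤ) ≤ d.S := by have := ok.hS1; omega
  nlinarith

lemma a_mono (ok : Ok d plo phi lo hi) {i j : ℕ} (h : i ≤ j) : a d i ≤ a d j := by
  have : Monotone (a d) := monotone_nat_of_le_succ fun n => by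
    have := a_le ok n
    omega
  exact this h

lemma le_a (ok : Ok d plo phi lo hi) (J : ℕ) : (J : ℤ) ≤ a d J := by
  induction J with
  | zero => unfold a tri; simp
  | succ J ih =>
    have := a_le ok J
    push_cast
    omega

lemma a_le_b (J : ℕ) : a d J ≤ b d J := by
  rw [b_eq]
  have : (0 : ℤ) ≤ (2 * J + 1) * d.S := by positivity
  omega

lemma b_le_a (ok : Ok d plo phi lo hi) (J : ℕ) : b d J ≤ a d (J + 2) := by
  rw [b_eq, a_succ, a_succ]
  have h2 : ((d.S : ℤ)) + 1 ≤ d.Rr := by have := ok.hS2; omega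
  have h3 : (0 : ℤ) ≤ J := by positivity
  push_cast
  nlinarith

lemma tri_add (J n : ℕ) : tri (J + n) = tri J + J * n + tri n := by
  have h1 := two_tri J
  have h2 := two_tri n
  have h3 := two_tri (J + n)
  nlinarith

lemma tri_two_mul (n : ℕ) : tri (2 * n) = n * (2 * n + 1) := by
  have h2 := two_tri (2 * n)
  nlinarith

lemma err_period (J : ℕ) (N : ℤ) : err d (J + 2 * d.L) N = err d J N := by
  unfold err
  have h1 : tri (J + 2 * d.L) = tri J + d.L * (2 * J + (2 * d.L + 1)) := by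
    rw [tri_add, tri_two_mul]
    ring
  congr 1
  · have : N - a d (J + 2 * d.L) = (N - a d J) +
        d.L * (-(d.Rr : ℤ) * (2 * J + (2 * d.L + 1)) + 2 * d.S) := by
      unfold a
      rw [h1]
      push_cast
      ring
    rw [this, per_add]
  · have : N - b d (J + 2 * d.L) = (N - b d J) +
        d.L * (-(d.Rr : ℤ) * (2 * J + (2 * d.L + 1)) - 2 * d.S) := by
      unfold b
      rw [h1]
      push_cast
      ring
    rw [this, per_add]

lemma W_residue (r : ℤ) (m : ℤ) (J : ℕ) : W d (r + d.L * m) J = W d r J := by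
  induction J with
  | zero => rfl
  | succ J ih =>
    simp only [W]
    rw [ih]
    unfold err
    rw [show r + d.L * m - a d J = (r - a d J) + d.L * m by ring,
      show r + d.L * m - b d J = (r - b d J) + d.L * m by ring, per_add, per_add]

lemma W_bounds (ok : Ok d plo phi lo hi) (N : ℤ) (J : ℕ) : lo ≤ W d N J ∧ W d N J ≤ hi := by
  obtain ⟨r, m, hr, rfl⟩ := residue ok N
  rw [W_residue]
  have h1 := ok.hW r hr
  obtain ⟨h2, h3⟩ := wchk_spec d lo hi r (2 * d.L) 0 (by simpa [W] using h1)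
  have hper : ∀ J, W d (r : ℤ) (J + 2 * d.L) = W d (r : ℤ) J := by
    intro J
    induction J with
    | zero => simpa [W] using h3
    | succ J ih =>
      rw [show J + 1 + 2 * d.L = (J + 2 * d.L) + 1 by ring]
      simp only [W]
      rw [ih, err_period, pow_add, pow_mul]
      norm_num
  induction J using Nat.strong_induction_on with
  | _ J ih =>
    rcases Nat.lt_or_ge J (2 * d.L) with h | h
    · have := h2 J h
      simpa using this
    · have h4 := ih (J - 2 * d.L) (by have := ok.Lpos; omega)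
      have h5 := hper (J - 2 * d.L)
      rw [show J - 2 * d.L + 2 * d.L = J by omega] at h5
      rw [h5]
      exact h4

/-- one pair of terms -/
def D (d : Par) (J : ℕ) (N : ℤ) : ℤ := p d (N - a d J) - p d (N - b d J)

/-- alternating sum of `L` pairs starting from index `k` -/
def cc (d : Par) : ℕ → ℕ → ℤ → ℤ
  | 0, _, _ => 0
  | L + 1, k, N => D d k N - cc d L (k + 1) N

lemma cc_append (L L' k : ℕ) (N : ℤ) :
    cc d (L + L') k N = cc d L k N + (-1) ^ L * cc d L' (k + L) N := by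
  induction L generalizing k with
  | zero => simp [cc]
  | succ L ih =>
    rw [show L + 1 + L' = (L + L') + 1 by ring, cc, cc, ih, show k + 1 + L = k + (L + 1) by ring,
      pow_succ]
    ring

lemma cc_zero (ok : Ok d plo phi lo hi) (L k : ℕ) (N : ℤ) (h : N < a d k) :
    cc d L k N = 0 := by
  induction L generalizing k with
  | zero => rfl
  | succ L ih =>
    have h1 := a_le_b (d := d) k
    have h2 := a_mono ok (show k ≤ k + 1 by omega)
    rw [cc, ih (k + 1) (by omega), D, p_neg (by omega), p_neg (by omega)]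
    ring

/-- polynomial part -/
def g (d : Par) (J : ℕ) (N : ℤ) : ℤ :=
  d.S * J * (2 * N + d.sg - d.S + d.Rr - d.Rr * (J : ℤ) ^ 2)

/-- correction for incomplete pairs -/
def del (d : Par) (J : ℕ) (N : ℤ) : ℤ := q d (N - b d J) - p d (N - b d J)

lemma Q_mul_D (ok : Ok d plo phi lo hi) (J : ℕ) (N : ℤ) (h : a d J ≤ N) :
    (d.Q : ℤ) * D d J N = g d J N + g d (J + 1) N + err d J N + d.Q * del d J N := by
  unfold D del
  have h1 : (d.Q : ℤ) * p d (N - a d J) = (N - a d J) * (N - a d J) + d.sg * (N - a d J) +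
      per d (N - a d J) := by
    rw [p_of_nonneg (by omega), Q_mul_q ok]
  have h2 := Q_mul_q ok (N - b d J)
  have key : (N - a d J) * (N - a d J) + d.sg * (N - a d J) -
      ((N - b d J) * (N - b d J) + d.sg * (N - b d J)) = g d J N + g d (J + 1) N := by
    unfold a b g
    push_cast
    linear_combination (-(d.Rr : ℤ) * (2 * J + 1) * d.S) * two_tri' J
  unfold err
  linarith

lemma cc_formula (ok : Ok d plo phi lo hi) (L k : ℕ) (N : ℤ) (h : ∀ i < L, b d (k + i) ≤ N) :
    (d.Q : ℤ) * cc d L k N = g d k N - (-1) ^ L * g d (k + L) N +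
      (-1) ^ k * (W d N (k + L) - W d N k) := by
  induction L generalizing k with
  | zero => simp [cc]
  | succ L ih =>
    have h0 := h 0 (by omega)
    rw [add_zero] at h0
    have h1 := Q_mul_D ok k N (by have := a_le_b (d := d) k; omega)
    have hdel : del d k N = 0 := by
      unfold del
      rw [p_of_nonneg (by omega), sub_self]
    have h2 := ih (k + 1) (fun i hi => by
      have := h (i + 1) (by omega)
      rwa [show k + (i + 1) = k + 1 + i by ring] at this)
    have e1 : W d N (k + 1) = W d N k + (-1) ^ k * err d k N := rfl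
    have e2 : (-1 : ℤ) ^ k * (-1) ^ k = 1 := by rw [← mul_pow]; simp
    rw [cc, show k + (L + 1) = k + 1 + L by ring, mul_sub, h1, h2, hdel, e1, pow_succ, pow_succ]
    linear_combination (-err d k N) * e2

/-- Lower bound for all alternating sums, from a bound on the boundary contribution. -/
lemma cc_lower (ok : Ok d plo phi lo hi) (m : ℤ) (k M : ℕ) (N : ℤ) (hk1 : 1 ≤ k) (hkM : k ≤ M)
    (hM1 : a d M ≤ N) (hM2 : N < a d (M + 1))
    (hX1 : |g d (M + 1) N + d.Q * del d M N - d.Q * del d (M - 1) N| + (hi - lo) + m ≤ g d 1 N)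
    (hX2 : b d M ≤ N → |g d (M + 1) N| + (hi - lo) + m ≤ g d 1 N)
    (hg : k < M ∨ b d M ≤ N) :
    m ≤ (d.Q : ℤ) * cc d (M + 1 - k) k N := by
  have hS1 : (1 : ℤ) ≤ d.S := by have := ok.hS1; omega
  have hS2 : (d.S : ℤ) + 1 ≤ d.Rr := by have := ok.hS2; omega
  have hsg : 0 < d.sg := by
    have := ok.alpos
    unfold Par.sg
    positivity
  have hk1' : (1 : ℤ) ≤ k := by exact_mod_cast hk1
  have hkM' : (k : ℤ) ≤ M := by exact_mod_cast hkM
  -- g k ≥ g 1
  have hgk : g d 1 N ≤ g d k N := by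
    have hkey : (d.Rr : ℤ) * (k * (k + 1)) ≤ 2 * N + d.sg - d.S := by
      have hA : 2 * a d M = d.Rr * (M * (M + 1)) - 2 * (M * d.S) := by
        unfold a
        have := two_tri' M
        linear_combination (d.Rr : ℤ) * this
      rcases hg with hg | hg
      · have hkM2 : (k : ℤ) + 1 ≤ M := by exact_mod_cast hg
        have h1 : (k : ℤ) * (k + 1) ≤ (M - 1) * M :=
          mul_le_mul (by omega) hkM2 (by omega) (by omega)
        have h2 : (d.Rr : ℤ) * (k * (k + 1)) ≤ d.Rr * ((M - 1) * M) :=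
          mul_le_mul_of_nonneg_left h1 (by positivity)
        have h3 : 0 ≤ (M : ℤ) * (d.Rr - d.S) := mul_nonneg (by positivity) (by omega)
        have h4 : (d.S : ℤ) ≤ d.sg := by
          have := ok.hS3
          unfold Par.sg
          exact_mod_cast this
        nlinarith
      · have hB := b_eq (d := d) M
        have h1 : (k : ℤ) * (k + 1) ≤ M * (M + 1) :=
          mul_le_mul hkM' (by omega) (by omega) (by omega)
        have h2 : (d.Rr : ℤ) * (k * (k + 1)) ≤ d.Rr * (M * (M + 1)) :=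
          mul_le_mul_of_nonneg_left h1 (by positivity)
        have h3 : (0 : ℤ) ≤ (M : ℤ) * d.S := by positivity
        nlinarith
    have h2 : 0 ≤ ((k : ℤ) - 1) * (d.S * (2 * N + d.sg - d.S - d.Rr * (k * (k + 1)))) :=
      mul_nonneg (by omega) (mul_nonneg (by omega) (by omega))
    have h3 : g d k N - g d 1 N =
        ((k : ℤ) - 1) * (d.S * (2 * N + d.sg - d.S - d.Rr * (k * (k + 1)))) := by
      unfold g
      push_cast
      ring
    omega
  by_cases hb : b d M ≤ N
  · -- all pairs complete except possibly M - 1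
    have hX := hX2 hb
    by_cases hb1 : ∀ i < M + 1 - k, b d (k + i) ≤ N
    · have h1 := cc_formula ok (M + 1 - k) k N hb1
      rw [show k + (M + 1 - k) = M + 1 by omega] at h1
      have w1 := W_bounds ok N (M + 1)
      have w2 := W_bounds ok N k
      rw [h1]
      have hab := abs_le.1 (le_refl |g d (M + 1) N|)
      rcases neg_one_pow_eq_or ℤ (M + 1 - k) with e | e <;>
      rcases neg_one_pow_eq_or ℤ k with e' | e' <;> rw [e, e'] <;> linarith
    · exfalso
      apply hb1
      intro i hi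
      have hmono : ∀ j, j ≤ M → b d j ≤ N := by
        intro j hj
        have : b d j ≤ b d M := by
          rw [b_eq, b_eq]
          have h1 := a_mono ok hj
          have h2 : (2 * (j : ℤ) + 1) * d.S ≤ (2 * M + 1) * d.S := by
            apply mul_le_mul_of_nonneg_right _ (by omega)
            have : (j : ℤ) ≤ M := by exact_mod_cast hj
            omega
          omega
        omega
      exact hmono _ (by omega)
  · have hkM3 : k < M := by
      rcases hg with h | h
      · exact h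
      · exact absurd h hb
    obtain ⟨L, hL⟩ : ∃ L, M = k + L + 1 := ⟨M - k - 1, by omega⟩
    subst hL
    have hcom : ∀ i < L, b d (k + i) ≤ N := by
      intro i hi
      have h1 := b_le_a ok (k + i)
      have h2 := a_mono ok (show k + i + 2 ≤ k + L + 1 by omega)
      omega
    have h1 := cc_formula ok L k N hcom
    rw [show k + L + 1 + 1 - k = L + 2 by omega, cc_append L 2 k N]
    have e0 : cc d 2 (k + L) N = D d (k + L) N - D d (k + L + 1) N := by
      simp only [cc]
      ring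
    have d1 := Q_mul_D ok (k + L) N (by
      have := a_mono ok (show k + L ≤ k + L + 1 by omega)
      omega)
    have d2 := Q_mul_D ok (k + L + 1) N hM1
    have w1 : W d N (k + L + 1) = W d N (k + L) + (-1) ^ (k + L) * err d (k + L) N := rfl
    have w2 : W d N (k + L + 1 + 1) = W d N (k + L + 1) +
        (-1) ^ (k + L + 1) * err d (k + L + 1) N := rfl
    have w3 := W_bounds ok N (k + L + 1 + 1)
    have w4 := W_bounds ok N k
    have total : (d.Q : ℤ) * (cc d L k N + (-1) ^ L * cc d 2 (k + L) N) =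
        g d k N - (-1) ^ L * (g d (k + L + 1 + 1) N + d.Q * del d (k + L + 1) N -
          d.Q * del d (k + L) N) + (-1) ^ k * (W d N (k + L + 1 + 1) - W d N k) := by
      rw [e0, w2, w1, mul_add, h1]
      have e2 : (-1 : ℤ) ^ k * (-1) ^ k = 1 := by rw [← mul_pow]; simp
      rw [pow_succ, pow_add]
      linear_combination ((-1 : ℤ) ^ L) * d1 - ((-1 : ℤ) ^ L) * d2 +
        (-(-1 : ℤ) ^ L * err d (k + L) N + (-1 : ℤ) ^ L * err d (k + L + 1) N) * e2
    rw [total]
    rw [show k + L + 1 - 1 = k + L by omega] at hX1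
    have hab := abs_le.1 (le_refl |g d (k + L + 1 + 1) N + d.Q * del d (k + L + 1) N -
      d.Q * del d (k + L) N|)
    rcases neg_one_pow_eq_or ℤ L with e | e <;>
    rcases neg_one_pow_eq_or ℤ k with e' | e' <;> rw [e, e'] <;> linarith


/-- `(-1)^k` times the tail, from index `k` on, of the theta series -/
noncomputable def U (d : Par) (k : ℕ) : ℤ⟦X⟧ :=
  PowerSeries.mk fun N => ∑ i ∈ Finset.range (N + 1), (-1 : ℤ) ^ i *
    ((if a d (k + i) = N then 1 else 0) - (if b d (k + i) = N then 1 else 0))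

lemma sum_eq_cc (L k : ℕ) (N : ℤ) :
    ∑ i ∈ Finset.range L, (-1 : ℤ) ^ i * (p d (N - a d (k + i)) - p d (N - b d (k + i))) =
      cc d L k N := by
  induction L generalizing k with
  | zero => simp [cc]
  | succ L ih =>
    have h : ∑ i ∈ Finset.range L, (-1 : ℤ) ^ (i + 1) *
        (p d (N - a d (k + (i + 1))) - p d (N - b d (k + (i + 1)))) =
        - ∑ i ∈ Finset.range L, (-1 : ℤ) ^ i *
          (p d (N - a d (k + 1 + i)) - p d (N - b d (k + 1 + i))) := by
      rw [← Finset.sum_neg_distrib]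
      apply Finset.sum_congr rfl
      intro i _
      rw [show k + (i + 1) = k + 1 + i by ring, pow_succ]
      ring
    rw [cc, ← ih, Finset.sum_range_succ', h]
    simp [D]
    ring

lemma cc_indep (ok : Ok d plo phi lo hi) (L L' k : ℕ) (N : ℤ) (h1 : N < a d (k + L))
    (h2 : N < a d (k + L')) : cc d L k N = cc d L' k N := by
  rcases Nat.le_total L L' with h | h
  · obtain ⟨t, rfl⟩ := Nat.exists_eq_add_of_le h
    rw [cc_append, cc_zero ok t (k + L) N h1, mul_zero, add_zero]
  · obtain ⟨t, rfl⟩ := Nat.exists_eq_add_of_le h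
    rw [cc_append, cc_zero ok t (k + L') N h2, mul_zero, add_zero]

lemma a_nonneg (ok : Ok d plo phi lo hi) (J : ℕ) : 0 ≤ a d J := by
  have := le_a ok J
  omega

lemma b_nonneg (ok : Ok d plo phi lo hi) (J : ℕ) : 0 ≤ b d J := by
  have := a_nonneg ok J
  have := a_le_b (d := d) J
  omega

lemma coeff_P_mul_U (ok : Ok d plo phi lo hi) (k N : ℕ) :
    coeff N (P d * U d k) = cc d (N + 1) k N := by
  rw [← sum_eq_cc, mul_comm (P d), PowerSeries.coeff_mul,
    Finset.Nat.sum_antidiagonal_eq_sum_range_succ (fun i j => coeff i (U d k) * coeff j (P d))]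
  have h1 : ∀ j ∈ Finset.range N.succ, coeff j (U d k) * coeff (N - j) (P d) =
      ∑ i ∈ Finset.range (N + 1), (-1 : ℤ) ^ i *
        ((if (a d (k + i)).toNat = j then p d (N - j) else 0) -
          (if (b d (k + i)).toNat = j then p d (N - j) else 0)) := by
    intro j hj
    rw [Finset.mem_range, Nat.lt_succ_iff] at hj
    unfold P U
    rw [PowerSeries.coeff_mk, PowerSeries.coeff_mk, Finset.sum_mul,
      ← Finset.sum_subset (s₁ := Finset.range (j + 1)) (s₂ := Finset.range (N + 1))]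
    · apply Finset.sum_congr rfl
      intro i _
      rw [Nat.cast_sub hj]
      have ha := a_nonneg ok (k + i)
      have hb := b_nonneg ok (k + i)
      have e1 : (a d (k + i) = (j : ℤ)) ↔ (a d (k + i)).toNat = j := by omega
      have e2 : (b d (k + i) = (j : ℤ)) ↔ (b d (k + i)).toNat = j := by omega
      simp only [e1, e2]
      split_ifs <;> ring
    · intro x hx
      rw [Finset.mem_range] at hx ⊢
      omega
    · intro x _ hx
      rw [Finset.mem_range] at hx
      have h1 := le_a ok (k + x)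
      have h2 := a_le_b (d := d) (k + x)
      rw [if_neg (by push_cast at h1; omega), if_neg (by push_cast at h1; omega)]
      simp
  rw [Finset.sum_congr rfl h1, Finset.sum_comm]
  apply Finset.sum_congr rfl
  intro i _
  rw [← Finset.mul_sum, Finset.sum_sub_distrib, Finset.sum_ite_eq, Finset.sum_ite_eq]
  have ha := a_nonneg ok (k + i)
  have hb := b_nonneg ok (k + i)
  congr 2
  · split_ifs with h
    · rw [Int.toNat_of_nonneg ha]
    · rw [Finset.mem_range, Nat.lt_succ_iff, not_le] at h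
      rw [p_neg (n := (N : ℤ) - a d (k + i)) (by omega)]
  · split_ifs with h
    · rw [Int.toNat_of_nonneg hb]
    · rw [Finset.mem_range, Nat.lt_succ_iff, not_le] at h
      rw [p_neg (n := (N : ℤ) - b d (k + i)) (by omega)]

/-- The series `U` as an infinite sum. -/
lemma hasSum_U (ok : Ok d plo phi lo hi) (k : ℕ) :
    HasSum (fun i : ℕ => (-1 : ℤ⟦X⟧) ^ i *
      (X ^ (a d (k + i)).toNat - X ^ (b d (k + i)).toNat)) (U d k) := by
  rw [PowerSeries.WithPiTopology.hasSum_iff_hasSum_coeff]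
  intro N
  have hc : ∀ i : ℕ, coeff N ((-1 : ℤ⟦X⟧) ^ i *
      (X ^ (a d (k + i)).toNat - X ^ (b d (k + i)).toNat)) = (-1 : ℤ) ^ i *
    ((if a d (k + i) = N then 1 else 0) - (if b d (k + i) = N then 1 else 0)) := by
    intro i
    have ha := a_nonneg ok (k + i)
    have hb := b_nonneg ok (k + i)
    have e0 : (-1 : ℤ⟦X⟧) ^ i = C ((-1 : ℤ) ^ i) := by simp
    rw [e0, PowerSeries.coeff_C_mul, map_sub, PowerSeries.coeff_X_pow, PowerSeries.coeff_X_pow]
    have e1 : (N = (a d (k + i)).toNat) ↔ a d (k + i) = (N : ℤ) := by omega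
    have e2 : (N = (b d (k + i)).toNat) ↔ b d (k + i) = (N : ℤ) := by omega
    simp only [e1, e2]
  unfold U
  rw [PowerSeries.coeff_mk]
  simp only [hc]
  apply hasSum_sum_of_ne_finset_zero
  intro x hx
  rw [Finset.mem_range] at hx
  have h1 := le_a ok (k + x)
  have h2 := a_le_b (d := d) (k + x)
  rw [if_neg (by push_cast at h1; omega), if_neg (by push_cast at h1; omega)]
  simp

/-- checking all alternating sums with index at least `kmin` for one `N` -/
def chk (d : Par) (kmin : ℕ) (N : ℤ) : ℕ → ℤ → Bool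
  | 0, _ => true
  | J + 1, acc => (Nat.blt (J + 1) kmin || decide (0 ≤ D d (J + 1) N - acc)) &&
      chk d kmin N J (D d (J + 1) N - acc)

lemma chk_spec (kmin : ℕ) (N : ℤ) (J L : ℕ) (h : chk d kmin N J (cc d L (J + 1) N) = true) :
    ∀ k, 1 ≤ k → kmin ≤ k → k ≤ J → 0 ≤ cc d (L + (J + 1 - k)) k N := by
  induction J generalizing L with
  | zero => intro k h1 _ h2; omega
  | succ J ih =>
    intro k h1 hmin h2
    rw [chk, Bool.and_eq_true, Bool.or_eq_true, decide_eq_true_eq] at h
    have e1 : D d (J + 1) N - cc d L (J + 1 + 1) N = cc d (L + 1) (J + 1) N := by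
      rw [cc]
    rw [e1] at h
    rcases Nat.lt_or_ge J k with hk | hk
    · have : k = J + 1 := by omega
      subst this
      rw [show J + 1 + 1 - (J + 1) = 1 by omega]
      rcases h.1 with h3 | h3
      · rw [Nat.blt_eq] at h3
        omega
      · exact h3
    · have := ih (L + 1) h.2 k h1 hmin hk
      rwa [show L + 1 + (J + 1 - k) = L + (J + 1 + 1 - k) by omega] at this

lemma chk_weaken (k1 k2 : ℕ) (h12 : k1 ≤ k2) (N : ℤ) (J : ℕ) (acc : ℤ)
    (h : chk d k1 N J acc = true) : chk d k2 N J acc = true := by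
  induction J generalizing acc with
  | zero => rfl
  | succ J ih =>
    rw [chk, Bool.and_eq_true, Bool.or_eq_true] at h ⊢
    refine ⟨?_, ih _ h.2⟩
    rcases h.1 with h1 | h1
    · left
      rw [Nat.blt_eq] at h1 ⊢
      omega
    · right
      exact h1

lemma small_nonneg (ok : Ok d plo phi lo hi) (kmin m0 k N : ℕ)
    (hs : chk d kmin (N : ℤ) m0 0 = true)
    (hk1 : 1 ≤ k) (hmin : kmin ≤ k) (hN : (N : ℤ) < a d (m0 + 1)) :
    0 ≤ cc d (N + 1) k N := by
  have h1 := le_a ok (k + (N + 1))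
  rcases Nat.lt_or_ge m0 k with hk | hk
  · rw [cc_zero ok]
    have := a_mono ok (show m0 + 1 ≤ k by omega)
    omega
  · have h2 := chk_spec kmin (N : ℤ) m0 0 (by simpa [cc] using hs) k hk1 hmin hk
    rwa [cc_indep ok (N + 1) (0 + (m0 + 1 - k)) k N (by push_cast at h1; omega)
      (by rw [show k + (0 + (m0 + 1 - k)) = m0 + 1 by omega]; exact hN)]

/-- the estimate of the boundary terms that is needed for all large `M` -/
def Bd (d : Par) (e0 m : ℤ) (m0 : ℕ) : Prop :=
  ∀ (M : ℕ) (N : ℤ), m0 < M → a d M ≤ N → N < a d (M + 1) →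
    (|g d (M + 1) N + d.Q * del d M N - d.Q * del d (M - 1) N| + e0 + m ≤ g d 1 N) ∧
    (b d M ≤ N → |g d (M + 1) N| + e0 + m ≤ g d 1 N)

lemma exists_M (ok : Ok d plo phi lo hi) (N : ℕ) :
    ∃ M, a d M ≤ (N : ℤ) ∧ (N : ℤ) < a d (M + 1) := by
  by_contra hcon
  push Not at hcon
  have : ∀ M, a d M ≤ (N : ℤ) := by
    intro M
    induction M with
    | zero => simp [a, tri]
    | succ M ih => exact hcon M ih
  have h1 := this (N + 1)
  have h2 := le_a ok (N + 1)
  push_cast at h2
  omega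

/-- The large part: for `N ≥ a (m0 + 1)` the alternating sum is either at least `m / Q`, or it is
the single value `p (N - a k)`. -/
lemma large (ok : Ok d plo phi lo hi) (m : ℤ) (m0 : ℕ) (hB : Bd d (hi - lo) m m0)
    (k N : ℕ) (hk1 : 1 ≤ k) (hkN : a d k ≤ (N : ℤ)) (hN : a d (m0 + 1) ≤ (N : ℤ)) :
    m ≤ d.Q * cc d (N + 1) k N ∨ cc d (N + 1) k N = p d (N - a d k) := by
  obtain ⟨M, hM1, hM2⟩ := exists_M ok N
  have hm : m0 < M := by
    by_contra hh
    have := a_mono ok (show M + 1 ≤ m0 + 1 by omega)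
    omega
  have hkM : k ≤ M := by
    by_contra hh
    have := a_mono ok (show M + 1 ≤ k by omega)
    omega
  have h1 := le_a ok (k + (N + 1))
  obtain ⟨hX1, hX2⟩ := hB M N hm hM1 hM2
  by_cases hg : k < M ∨ b d M ≤ (N : ℤ)
  · left
    have := cc_lower ok m k M N hk1 hkM hM1 hM2 hX1 hX2 hg
    rwa [cc_indep ok (N + 1) (M + 1 - k) k N (by push_cast at h1; omega)
      (by rw [show k + (M + 1 - k) = M + 1 by omega]; exact hM2)]
  · right
    have hk : k = M := by omega
    subst hk
    rw [cc_indep ok (N + 1) 1 k N (by push_cast at h1; omega) hM2]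
    simp only [cc]
    unfold D
    rw [p_neg (n := (N : ℤ) - b d k) (by omega)]
    ring

lemma large_nonneg (ok : Ok d plo phi lo hi) (m0 : ℕ) (hB : Bd d (hi - lo) 0 m0)
    (hp : ∀ n, 0 ≤ p d n)
    (k N : ℕ) (hk1 : 1 ≤ k) (hN : a d (m0 + 1) ≤ (N : ℤ)) :
    0 ≤ cc d (N + 1) k N := by
  rcases lt_or_ge (N : ℤ) (a d k) with h | h
  · rw [cc_zero ok _ _ _ h]
  · rcases large ok 0 m0 hB k N hk1 h hN with h1 | h1
    · have hQ : (0 : ℤ) < d.Q := by exact_mod_cast ok.Qpos
      exact nonneg_of_mul_nonneg_right h1 hQ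
    · rw [h1]
      exact hp _

lemma Bd_of (ok : Ok d plo phi lo hi) (e0 m : ℤ) (m0 : ℕ)
    (H : ∀ M s y1 y2 : ℤ, (m0 : ℤ) + 1 ≤ M → 0 ≤ s → s < d.Rr * (M + 1) - d.S →
      ((s < (2 * M + 1) * d.S ∧ ∃ v, plo ≤ v ∧ v ≤ phi ∧
        y1 = (s - (2 * M + 1) * d.S) * (s - (2 * M + 1) * d.S) +
          d.sg * (s - (2 * M + 1) * d.S) + v) ∨ ((2 * M + 1) * d.S ≤ s ∧ y1 = 0)) →
      ((s < M * (2 * d.S - d.Rr) ∧ ∃ v, plo ≤ v ∧ v ≤ phi ∧
        y2 = (s - M * (2 * d.S - d.Rr)) * (s - M * (2 * d.S - d.Rr)) +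
          d.sg * (s - M * (2 * d.S - d.Rr)) + v) ∨ (M * (2 * d.S - d.Rr) ≤ s ∧ y2 = 0)) →
      |d.S * (M + 1) * (2 * s + d.sg - d.S - d.Rr * M - 2 * M * d.S) + y1 - y2| + e0 + m ≤
        d.S * (d.Rr * M ^ 2 + d.Rr * M - 2 * M * d.S + 2 * s + d.sg - d.S)) :
    Bd d e0 m m0 := by
  intro M N hM hM1 hM2
  obtain ⟨s, hs⟩ : ∃ s : ℤ, N = a d M + s := ⟨N - a d M, by ring⟩
  have hs0 : 0 ≤ s := by omega
  have hs1 : s < d.Rr * ((M : ℤ) + 1) - d.S := by
    rw [a_succ] at hM2
    omega
  have hM' : (m0 : ℤ) + 1 ≤ M := by exact_mod_cast hM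
  have hN2 : 2 * N = d.Rr * ((M : ℤ) ^ 2 + M) - 2 * M * d.S + 2 * s := by
    rw [hs]
    unfold a
    have := two_tri' M
    linear_combination (d.Rr : ℤ) * this
  have hg1 : g d 1 N = d.S * (d.Rr * (M : ℤ) ^ 2 + d.Rr * M - 2 * M * d.S + 2 * s + d.sg - d.S) := by
    unfold g
    push_cast
    linear_combination (d.S : ℤ) * hN2
  have hgM : g d (M + 1) N =
      d.S * ((M : ℤ) + 1) * (2 * s + d.sg - d.S - d.Rr * M - 2 * M * d.S) := by
    unfold g
    push_cast
    linear_combination (d.S : ℤ) * (M + 1) * hN2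
  have hb1 : N - b d M = s - (2 * (M : ℤ) + 1) * d.S := by
    rw [b_eq, hs]; ring
  have hb2 : N - b d (M - 1) = s - M * (2 * d.S - d.Rr) := by
    obtain ⟨M', rfl⟩ : ∃ M', M = M' + 1 := ⟨M - 1, by omega⟩
    rw [show M' + 1 - 1 = M' by omega, b_eq, hs, a_succ]
    push_cast
    ring
  have hQ1 : d.Q * del d M N = d.Q * q d (N - b d M) - d.Q * p d (N - b d M) := by
    unfold del; ring
  have hQ2 : d.Q * del d (M - 1) N =
      d.Q * q d (N - b d (M - 1)) - d.Q * p d (N - b d (M - 1)) := by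
    unfold del; ring
  have c1 : (s < (2 * (M : ℤ) + 1) * d.S ∧ ∃ v, plo ≤ v ∧ v ≤ phi ∧
        d.Q * del d M N = (s - (2 * (M : ℤ) + 1) * d.S) * (s - (2 * (M : ℤ) + 1) * d.S) +
          d.sg * (s - (2 * (M : ℤ) + 1) * d.S) + v) ∨
        ((2 * (M : ℤ) + 1) * d.S ≤ s ∧ d.Q * del d M N = 0) := by
    rcases lt_or_ge s ((2 * (M : ℤ) + 1) * d.S) with h | h
    · left
      refine ⟨h, per d (N - b d M), (per_bounds ok _).1, (per_bounds ok _).2, ?_⟩
      rw [hQ1, p_neg (n := N - b d M) (by omega), Q_mul_q ok, hb1]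
      ring
    · right
      refine ⟨h, ?_⟩
      rw [hQ1, p_of_nonneg (n := N - b d M) (by omega)]
      ring
  have c2 : (s < (M : ℤ) * (2 * d.S - d.Rr) ∧ ∃ v, plo ≤ v ∧ v ≤ phi ∧
        d.Q * del d (M - 1) N = (s - M * (2 * d.S - d.Rr)) * (s - M * (2 * d.S - d.Rr)) +
          d.sg * (s - M * (2 * d.S - d.Rr)) + v) ∨
        ((M : ℤ) * (2 * d.S - d.Rr) ≤ s ∧ d.Q * del d (M - 1) N = 0) := by
    rcases lt_or_ge s ((M : ℤ) * (2 * d.S - d.Rr)) with h | h
    · left
      refine ⟨h, per d (N - b d (M - 1)), (per_bounds ok _).1, (per_bounds ok _).2, ?_⟩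
      rw [hQ2, p_neg (n := N - b d (M - 1)) (by omega), Q_mul_q ok, hb2]
      ring
    · right
      refine ⟨h, ?_⟩
      rw [hQ2, p_of_nonneg (n := N - b d (M - 1)) (by omega)]
      ring
  have key := H M s (d.Q * del d M N) (d.Q * del d (M - 1) N) hM' hs0 hs1 c1 c2
  refine ⟨by rw [hg1, hgM]; exact key, fun hb => ?_⟩
  have e1 : d.Q * del d M N = 0 := by
    rcases c1 with ⟨h, _⟩ | ⟨_, h⟩
    · omega
    · exact h
  have e2 : d.Q * del d (M - 1) N = 0 := by
    rcases c2 with ⟨h, _⟩ | ⟨_, h⟩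
    · exfalso
      have h3 : (M : ℤ) * (2 * d.S - d.Rr) ≤ (2 * (M : ℤ) + 1) * d.S := by
        have h4 : (0 : ℤ) ≤ (M : ℤ) * d.Rr := by positivity
        have h5 : (0 : ℤ) ≤ (d.S : ℤ) := by positivity
        nlinarith
      omega
    · exact h
  rw [e1, e2] at key
  rw [hg1, hgM]
  simpa using key

/-- geometric series -/
noncomputable def geo (e : ℕ) : ℤ⟦X⟧ := PowerSeries.mk fun n => if e ∣ n then 1 else 0

lemma one_sub_mul_geo (e : ℕ) (he : 0 < e) : (1 - X ^ e) * geo e = 1 := by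
  have h := one_sub_mul (fun n : ℤ => if 0 ≤ n ∧ (e : ℤ) ∣ n then 1 else 0)
    (fun n hn => by rw [if_neg (by omega)]) e
  have e1 : geo e = PowerSeries.mk fun n : ℕ =>
      (if 0 ≤ (n : ℤ) ∧ (e : ℤ) ∣ (n : ℤ) then (1 : ℤ) else 0) := by
    unfold geo
    ext n
    rw [PowerSeries.coeff_mk, PowerSeries.coeff_mk]
    have : (0 ≤ (n : ℤ) ∧ (e : ℤ) ∣ (n : ℤ)) ↔ e ∣ n := by
      constructor
      · intro h; exact_mod_cast h.2
      · intro h; exact ⟨by positivity, by exact_mod_cast h⟩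
    simp only [this]
  rw [e1, h]
  ext n
  rw [PowerSeries.coeff_mk, PowerSeries.coeff_one]
  rcases Nat.eq_zero_or_pos n with rfl | hn
  · rw [if_pos ⟨by norm_num, by norm_num⟩, if_neg (by push_cast; omega), if_pos rfl]
    norm_num
  · rw [if_neg (by omega : ¬ n = 0)]
    by_cases hd : (e : ℤ) ∣ (n : ℤ)
    · have h2 : e ≤ n := Nat.le_of_dvd hn (by exact_mod_cast hd)
      rw [if_pos ⟨by positivity, hd⟩, if_pos ⟨by omega, dvd_sub_self_right.2 hd⟩, sub_self]
    · rw [if_neg (fun hh => hd hh.2), if_neg (fun hh => hd (by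
        have := hh.2
        rwa [dvd_sub_self_right] at this)), sub_self]

lemma coeff_geo_mul (e : ℕ) (he : 0 < e) (f : ℤ⟦X⟧) (n : ℕ) :
    coeff n (geo e * f) = coeff n f + if e ≤ n then coeff (n - e) (geo e * f) else 0 := by
  have h1 : geo e * f - X ^ e * (geo e * f) = f := by
    calc geo e * f - X ^ e * (geo e * f) = ((1 - X ^ e) * geo e) * f := by ring
      _ = f := by rw [one_sub_mul_geo e he, one_mul]
  have h2 := congrArg (coeff n) h1
  rw [map_sub, PowerSeries.coeff_X_pow_mul'] at h2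
  linarith

lemma geo_lower (e : ℕ) (he : 0 < e) (f : ℤ⟦X⟧) (n0 : ℕ) (m : ℤ) (hm : 0 ≤ m)
    (hf : ∀ n, n0 ≤ n → m ≤ coeff n f) (hs : ∀ n, n < n0 → 0 ≤ coeff n (geo e * f)) :
    (∀ n, 0 ≤ coeff n (geo e * f)) ∧ (∀ n, n0 ≤ n → m ≤ coeff n (geo e * f)) := by
  have h0 : ∀ n, 0 ≤ coeff n (geo e * f) := by
    intro n
    induction n using Nat.strong_induction_on with
    | _ n ih =>
      rcases Nat.lt_or_ge n n0 with h | h
      · exact hs n h
      · rw [coeff_geo_mul e he]
        have h1 := hf n h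
        split_ifs with h2
        · have := ih (n - e) (by omega)
          omega
        · omega
  refine ⟨h0, fun n hn => ?_⟩
  rw [coeff_geo_mul e he]
  have h1 := hf n hn
  split_ifs with h2
  · have := h0 (n - e)
    omega
  · omega

/-- computable version of the coefficients of `geo e * f` -/
def gs (e : ℕ) (f : ℕ → ℤ) (n : ℕ) : ℤ := ∑ j ∈ Finset.range (n / e + 1), f (n - e * j)

lemma coeff_geo_eq (e : ℕ) (he : 0 < e) (f : ℤ⟦X⟧) (f' : ℕ → ℤ) (n0 : ℕ)
    (hf : ∀ n < n0, coeff n f = f' n) (n : ℕ) (hn : n < n0) : coeff n (geo e * f) = gs e f' n := by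
  induction n using Nat.strong_induction_on with
  | _ n ih =>
    rw [coeff_geo_mul e he, hf n hn]
    unfold gs
    split_ifs with h
    · rw [ih (n - e) (by omega) (by omega)]
      unfold gs
      have h1 : n / e + 1 = (n - e) / e + 1 + 1 := by
        rw [Nat.div_eq_sub_div he h]
      rw [h1, Finset.sum_range_succ' _ ((n - e) / e + 1)]
      have h2 : ∑ j ∈ Finset.range ((n - e) / e + 1), f' (n - e * (j + 1)) =
          ∑ j ∈ Finset.range ((n - e) / e + 1), f' (n - e - e * j) := by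
        apply Finset.sum_congr rfl
        intro j _
        congr 1
        rw [mul_add, mul_one]
        omega
      rw [h2]
      simp
      ring
    · have : n / e = 0 := Nat.div_eq_of_lt (by omega)
      rw [this]
      simp


lemma R_split' (pr : ℕ → Prop) [DecidablePred pr] (e : ℕ) (he : 0 < e) (h : pr e) :
    (1 - X ^ e) * R pr = R (fun i => pr i ∧ i ≠ e) := by
  obtain ⟨e', rfl⟩ : ∃ e', e = e' + 1 := ⟨e - 1, by omega⟩
  exact R_split pr e' h

lemma R_eq_geo_mul (pr : ℕ → Prop) [DecidablePred pr] (e : ℕ) (he : 0 < e) (h : pr e) :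
    R pr = geo e * R (fun i => pr i ∧ i ≠ e) := by
  rw [← R_split' pr e he h]
  calc R pr = ((1 - X ^ e) * geo e) * R pr := by rw [one_sub_mul_geo e he, one_mul]
    _ = _ := by ring

lemma R_eq_P_mul (ok : Ok d plo phi lo hi) (pr : ℕ → Prop) [DecidablePred pr] (h1 : pr d.al)
    (h2 : pr d.be ∧ d.be ≠ d.al) (h3 : (pr d.ga ∧ d.ga ≠ d.al) ∧ d.ga ≠ d.be) :
    R pr = P d * R (fun i => ((pr i ∧ i ≠ d.al) ∧ i ≠ d.be) ∧ i ≠ d.ga) := by
  rw [← R_split' (fun i => (pr i ∧ i ≠ d.al) ∧ i ≠ d.be) d.ga ok.gapos h3,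
    ← R_split' (fun i => pr i ∧ i ≠ d.al) d.be ok.bepos h2, ← R_split' pr d.al ok.alpos h1]
  calc R pr = ((1 - X ^ d.ga) * ((1 - X ^ d.be) * ((1 - X ^ d.al) * P d))) * R pr := by
        rw [P_inv ok, one_mul]
    _ = _ := by ring

end Pool.Agent.R107.QT
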